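import Mathlib
import Pool.Agent.H98.GF2

set_option autoImplicit false
open MeasureTheory Filter Topology Set Real
open scoped NNReal
open Pool.Agent.H98.GF

namespace Pool.Agent.Results.MP_bbd370_an.Gap

/- `μ1` is the measure `x dx` on `(0, ∞)` and `X1 = Lp ℝ 1 μ1` (file GF2). -/

section
variable {E : Type} [NormedAddCommGroup E] [NormedSpace ℝ E]

/-- `C_0`-semigroup -/
def IsC0 (V : ℝ≥0 → E →L[ℝ] E) : Prop :=
  V 0 = 1 ∧ (∀ s t, V (s + t) = V s * V t) ∧ ∀ f, Continuous fun t => V t f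

/-- `f` is in the domain of the generator of `V`, and the generator maps it to `g` -/
def Gen (V : ℝ≥0 → E →L[ℝ] E) (f g : E) : Prop :=
  Tendsto (fun t : ℝ≥0 => (t : ℝ)⁻¹ • (V t f - f)) (𝓝[>] 0) (𝓝 g)

/-- norm in the Calkin algebra -/
noncomputable def essNorm (A : E →L[ℝ] E) : ℝ :=
  sInf {c | ∃ K : E →L[ℝ] E, IsCompactOperator K ∧ c = ‖A - K‖}

/-- essential spectral radius (spectral radius in the Calkin algebra) -/
noncomputable def essRad (A : E →L[ℝ] E) : ℝ :=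
  ⨅ n : ℕ, essNorm (A ^ (n + 1)) ^ (1 / ((n : ℝ) + 1))

/-- `U`, `V` are `C_0`-semigroups, `V` is positive with generator that of `U` plus `B`,
`ω_ess(V) ≤ -1` and `ω(V) ≥ 0` -/
def HasGap (P : E → Prop) (U V : ℝ≥0 → E →L[ℝ] E) (B : E →L[ℝ] E) : Prop :=
    IsC0 U ∧ IsC0 V ∧ (∀ t f, P f → P (V t f)) ∧ (∀ f g, Gen V f g ↔ Gen U f (g - B f)) ∧
    (∀ t : ℝ≥0, essRad (V t) ≤ exp (-t)) ∧
    (∀ M ω : ℝ, (∀ t : ℝ≥0, ‖V t‖ ≤ M * exp (ω * t)) → 0 ≤ ω)
end

noncomputable def U0 (t : ℝ≥0) : X1 →L[ℝ] X1 := exp (-t) • τ1 t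
noncomputable def V0 (t : ℝ≥0) : X1 →L[ℝ] X1 := U0 t * dat.W t
noncomputable def B0 : X1 →L[ℝ] X1 := φ1.smulRight β1

lemma U0_c (f : X1) : Continuous fun t => U0 t f := by
  have := (dat.hc f).comp NNReal.continuous_coe
  simp only [U0, ContinuousLinearMap.smul_apply]
  exact (by fun_prop : Continuous fun t : ℝ≥0 => exp (-(t : ℝ))).smul this

lemma U0_n (t : ℝ≥0) (f : X1) : ‖U0 t f‖ = exp (-t) * ‖f‖ := by
  simp [U0, norm_smul, dat.hiso]

lemma U0_lim {ι : Type} {l : Filter ι} {t : ι → ℝ≥0} {x : ι → X1} {t0 : ℝ≥0} {y : X1}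
    (ht : Tendsto t l (𝓝 t0)) (hx : Tendsto x l (𝓝 y)) :
    Tendsto (fun i => U0 (t i) (x i)) l (𝓝 (U0 t0 y)) := by
  have h1 := ((U0_c y).tendsto t0).comp ht
  have h2 : Tendsto (fun i => U0 (t i) (x i - y)) l (𝓝 0) := by
    refine squeeze_zero_norm (fun i => ?_) (tendsto_iff_norm_sub_tendsto_zero.1 hx)
    rw [U0_n]
    exact mul_le_of_le_one_left (norm_nonneg _) (exp_le_one_iff.2 (by simp))
  have := h2.add h1
  simpa using this

lemma gen (f g : X1) : Gen V0 f g ↔ Gen U0 f (g - B0 f) := by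
  have h1 := (dat.wd' f le_rfl).tendsto_slope_zero_right
  have h2 : Tendsto (fun t : ℝ≥0 => (t : ℝ)) (𝓝[>] 0) (𝓝[>] 0) :=
    tendsto_nhdsWithin_iff.2 ⟨(NNReal.continuous_coe.tendsto 0).mono_left nhdsWithin_le_nhds,
      eventually_nhdsWithin_of_forall fun t ht => ht⟩
  have h3 := U0_lim (t := fun t => t) (t0 := 0) (tendsto_id.mono_left nhdsWithin_le_nhds) (h1.comp h2)
  have e0 : w τ1 φ1 β1 f 0 = f := by simp [w]
  have e1 : U0 0 (φ1 (τ1 0 (w τ1 φ1 β1 f 0)) • τ1 (-0) β1) = B0 f := by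
    simp [U0, B0, e0, dat.h0]
  rw [e1] at h3
  have e2 : ∀ t : ℝ≥0, (t : ℝ)⁻¹ • (V0 t f - f) = (t : ℝ)⁻¹ • (U0 t f - f) +
      U0 t ((t : ℝ)⁻¹ • (w τ1 φ1 β1 f (0 + t) - w τ1 φ1 β1 f 0)) := by
    intro t
    rw [e0, zero_add, map_smul, map_sub, ← smul_add]
    simp [V0, dat.W_apply]
  unfold Gen
  constructor
  · intro h
    have := h.sub h3
    refine this.congr fun t => ?_
    rw [e2]; exact add_sub_cancel_right _ _
  · intro h
    have := h.add h3
    rw [sub_add_cancel] at this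
    exact this.congr fun t => (e2 t).symm

/-- `X_1 = L^1((0, ∞), x dx)` -/
def X : Type := Lp ℝ 1 μ1
noncomputable instance : NormedAddCommGroup X := Lp.instNormedAddCommGroup (E := ℝ) (p := 1) (μ := μ1)
noncomputable instance : NormedSpace ℝ X := Lp.instNormedSpace (E := ℝ) (p := 1) (μ := μ1)
/-- a representative of `f` -/
noncomputable def ev (f : X) : ℝ → ℝ := (show Lp ℝ 1 μ1 from f)
/-- `f ≥ 0` almost everywhere -/
def Pos (f : X) : Prop := ∀ᵐ y ∂μ1, 0 ≤ ev f y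

/-- the hypotheses on the data, with `a` bounded on the whole half-line -/
def Data (r a : ℝ → ℝ) (b : ℝ → ℝ → ℝ) : Prop :=
    (∀ x, 0 < x → 0 < r x) ∧ LocallyIntegrableOn (fun x => 1 / r x) (Ioi 0) ∧
    ¬ IntegrableOn (fun x => 1 / r x) (Ioo 0 1) ∧ ¬ IntegrableOn (fun x => 1 / r x) (Ioi 1) ∧
    Measurable a ∧ (∃ M, ∀ x, 0 ≤ a x ∧ a x ≤ M) ∧
    Measurable (Function.uncurry b) ∧ (∀ x y, 0 < x → x < y → 0 ≤ b x y) ∧
    (∀ y, 0 < y → IntegrableOn (fun x => x * b x y) (Ioo 0 y) ∧ ∫ x in Ioo 0 y, x * b x y ≤ y)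

/-- `Xf y t = X(y, t)` -/
def Flow (r : ℝ → ℝ) (Xf : ℝ → ℝ → ℝ) : Prop :=
    ∀ y, 0 < y → ∀ t, 0 ≤ t → Xf y t ∈ Ioc 0 y ∧ ∫ s in (Xf y t)..y, 1 / r s = t ∧
      DifferentiableAt ℝ (fun y => Xf y t) y

/-- `U` is the semigroup `U_0^{(a)}` -/
def IsU (r a : ℝ → ℝ) (Xf : ℝ → ℝ → ℝ) (U : ℝ≥0 → X →L[ℝ] X) : Prop :=
    ∀ (t : ℝ≥0) (f : X), ∀ᵐ y ∂μ1, ev (U t f) y =
      exp (-∫ p in (Xf y t)..y, a p / r p) * ev f (Xf y t) * deriv (fun y => Xf y t) y

/-- `B` is the fragmentation operator -/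
def IsB (a : ℝ → ℝ) (b : ℝ → ℝ → ℝ) (B : X →L[ℝ] X) : Prop :=
    ∀ f : X, ∀ᵐ x ∂μ1, IntegrableOn (fun y => a y * b x y * ev f y) (Ioi x) ∧
      ev (B f) x = ∫ y in Ioi x, a y * b x y * ev f y

theorem aux : ∃ (r a : ℝ → ℝ) (b : ℝ → ℝ → ℝ) (Xf : ℝ → ℝ → ℝ) (U V : ℝ≥0 → X1 →L[ℝ] X1)
    (B : X1 →L[ℝ] X1), Data r a b ∧ Flow r Xf ∧
    (∀ (t : ℝ≥0) (f : X1), ∀ᵐ y ∂μ1, U t f y =
      exp (-∫ p in (Xf y t)..y, a p / r p) * f (Xf y t) * deriv (fun y => Xf y t) y) ∧
    (∀ f : X1, ∀ᵐ x ∂μ1, IntegrableOn (fun y => a y * b x y * f y) (Ioi x) ∧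
      B f x = ∫ y in Ioi x, a y * b x y * f y) ∧
    HasGap (fun f : X1 => ∀ᵐ y ∂μ1, 0 ≤ f y) U V B := by
  unfold Data Flow HasGap
  have hlog : ∀ y t : ℝ, 0 < y → ∫ s in (y * exp (-t))..y, 1 / s = t := fun y t hy => by
    rw [integral_one_div_of_pos (by positivity) hy, div_mul_cancel_left₀ hy.ne', log_inv, log_exp,
      neg_neg]
  have hpos : ∀ᵐ y ∂μ1, 0 < y := ae_tr.2 (ae_of_all _ exp_pos)
  refine ⟨fun x => x, fun _ => 2, fun x y => if x < 1 ∧ 1 < y then y / x else 0,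
    fun y t => y * exp (-t), U0, V0, B0, ⟨fun _ h => h, ?_, ?_, ?_, measurable_const,
    ⟨2, fun _ => by norm_num⟩, ?_, ?_, ?_⟩, ?_, ?_, ?_, ⟨?_, ?_, U0_c⟩, ⟨?_, ?_, ?_⟩, ?_, gen, ?_, ?_⟩
  · exact ContinuousOn.locallyIntegrableOn (continuousOn_const.div continuousOn_id
      fun x hx => ne_of_gt hx) measurableSet_Ioi
  · intro h
    rw [← intervalIntegrable_iff_integrableOn_Ioo_of_le zero_le_one] at h
    simp [intervalIntegrable_inv_iff] at h
  · simpa using not_integrableOn_Ioi_inv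
  · exact Measurable.ite ((measurableSet_lt measurable_fst measurable_const).inter
      (measurableSet_lt measurable_const measurable_snd)) (measurable_snd.div measurable_fst)
      measurable_const
  · intro x y hx hy
    beta_reduce
    split_ifs
    · exact div_nonneg (hx.trans hy).le hx.le
    · rfl
  · intro y hy
    by_cases h : 1 < y
    · have e : ∀ x ∈ Ioo 0 y, x * (if x < 1 ∧ 1 < y then y / x else 0) =
          (Iio 1).indicator (fun _ => y) x := by
        intro x hx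
        by_cases h1 : x < 1
        · rw [if_pos ⟨h1, h⟩, indicator_of_mem (show x ∈ Iio 1 from h1)]; field_simp [hx.1.ne']
        · rw [if_neg (fun h2 => h1 h2.1), indicator_of_notMem (show x ∉ Iio 1 from h1), mul_zero]
      refine ⟨(IntegrableOn.congr_fun ((integrableOn_const (by simp)).indicator measurableSet_Iio)
        (fun x hx => (e x hx).symm) measurableSet_Ioo), ?_⟩
      rw [setIntegral_congr_fun measurableSet_Ioo e, setIntegral_indicator measurableSet_Iio,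
        Ioo_inter_Iio, min_eq_right h.le]
      simp
    · simp [h, hy.le]
  · intro y hy t ht
    exact ⟨⟨by positivity, mul_le_of_le_one_right hy.le (exp_le_one_iff.2 (by linarith))⟩,
      hlog y t hy, by fun_prop⟩
  · intro t f
    filter_upwards [τ1_ae t f, Lp.coeFn_smul (exp (-(t : ℝ))) (τ1 t f), hpos] with y h1 h2 hy
    have e : ∫ p in (y * exp (-t))..y, 2 / p = 2 * t := by
      rw [← hlog y t hy, ← intervalIntegral.integral_const_mul]; simp only [mul_one_div]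
      rw [hlog y t hy]
    rw [e, deriv_mul_const_field, deriv_id'', one_mul, ← h1, mul_comm]
    exact h2
  · intro f
    have hi : IntegrableOn (fun y => y * f y) (Ioi 0) := by
      have := (integrable_withDensity_iff_integrable_smul' (by fun_prop) (by simp)).1
        (L1.integrable_coeFn f)
      refine IntegrableOn.congr_fun this (fun y hy => ?_) measurableSet_Ioi
      simp [ENNReal.toReal_ofReal (le_of_lt hy)]
    filter_upwards [β1_ae, Lp.coeFn_smul (φ1 f) β1, hpos] with x h1 h2 hx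
    have h3 : B0 f x = φ1 f * β1 x := h2
    rw [h3, h1, φ1_eq]
    by_cases h : x < 1
    · have e : (fun y => 2 * (if x < 1 ∧ 1 < y then y / x else 0) * f y) =
          (Ioi 1).indicator fun y => 2 / x * (y * f y) := by
        ext y
        by_cases h1 : 1 < y
        · rw [if_pos ⟨h, h1⟩, indicator_of_mem (show y ∈ Ioi 1 from h1)]; ring
        · rw [if_neg (fun h2 => h1 h2.2), indicator_of_notMem (show y ∉ Ioi 1 from h1)]; simp
      rw [e]
      refine ⟨((hi.mono_set (Ioi_subset_Ioi hx.le)).const_mul _).indicator measurableSet_Ioi, ?_⟩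
      rw [setIntegral_indicator measurableSet_Ioi, Ioi_inter_Ioi, max_eq_right h.le, if_pos h,
        integral_const_mul, mul_comm]
    · simp [h]
  · ext1 f; simp [U0, dat.h0]
  · intro s t; ext1 f
    simp only [U0, NNReal.coe_add, ContinuousLinearMap.smul_apply, ContinuousLinearMap.mul_apply,
      dat.hadd, map_smul, smul_smul, ← exp_add, neg_add]
    rw [add_comm]
  · ext1 f; simp [V0, U0, dat.h0, dat.W_apply, w]
  · intro s t; ext1 f
    simp only [V0, U0, NNReal.coe_add, ContinuousLinearMap.smul_apply, ContinuousLinearMap.mul_apply,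
      map_smul, smul_smul, ← exp_add, neg_add]
    simp only [dat.W_apply, NNReal.coe_add]
    rw [dat.semi f t.coe_nonneg s.coe_nonneg, add_comm]
  · intro f
    exact continuous_iff_continuousAt.2 fun t => U0_lim tendsto_id
      (((dat.wc f).comp NNReal.continuous_coe).tendsto t)
  · intro t f hf
    exact (Lp.coeFn_nonneg _).2
      (smul_pos' (exp_pos _).le (τ1_pos _ (w_pos ((Lp.coeFn_nonneg _).1 hf) t.2)))
  · intro t
    have bd : ∀ A : X1 →L[ℝ] X1, BddBelow {c | ∃ K : X1 →L[ℝ] X1, IsCompactOperator K ∧ c = ‖A - K‖} :=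
      fun A => ⟨0, by rintro _ ⟨K, -, rfl⟩; exact norm_nonneg _⟩
    refine ciInf_le_of_le ⟨0, ?_⟩ 0 ?_
    · rintro _ ⟨n, rfl⟩
      exact rpow_nonneg (Real.sInf_nonneg (by rintro _ ⟨K, -, rfl⟩; exact norm_nonneg _)) _
    · simp only [zero_add, pow_one, Nat.cast_zero, div_one, rpow_one]
      have hk : IsCompactOperator (U0 t * (dat.W t - 1) : X1 →L[ℝ] X1) := by
        rw [ContinuousLinearMap.mul_def, ContinuousLinearMap.coe_comp']
        exact (dat.cpt t).clm_comp (U0 t)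
      refine csInf_le_of_le (b := ‖V0 t - U0 t * (dat.W t - 1)‖) (bd _) ⟨_, hk, rfl⟩ ?_
      rw [V0, mul_sub, mul_one, sub_sub_cancel]
      exact ContinuousLinearMap.opNorm_le_bound _ (exp_pos _).le fun f => (U0_n t f).le
  · intro M ω h
    by_contra hω
    push Not at hω
    have h1 : ∀ t : ℝ≥0, 2 / 3 * (1 - exp (-3 * t)) ≤ ‖φ1‖ * (M * exp (ω * t) * ‖β1‖) := by
      intro t
      have e : φ1 (V0 t β1) = 2 / 3 * (1 - exp (-3 * t)) := by
        simp only [V0, U0, ContinuousLinearMap.smul_apply, ContinuousLinearMap.mul_apply, map_smul,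
          dat.W_apply, smul_eq_mul]
        rw [dat.wm β1 t.coe_nonneg, m_k dat.hk t.coe_nonneg, mul_left_comm, mul_sub, ← exp_add, ← exp_add]
        congr 3 <;> [simp; ring]
      rw [← e]
      refine (le_abs_self _).trans ((φ1.le_opNorm _).trans ?_)
      gcongr
      exact ((V0 t).le_opNorm _).trans (mul_le_mul_of_nonneg_right (h t) (norm_nonneg _))
    have t0 : Tendsto (fun t : ℝ≥0 => (t : ℝ)) atTop atTop := NNReal.tendsto_coe_atTop.2 tendsto_id
    have t1 := ((tendsto_exp_atBot.comp (t0.const_mul_atTop_of_neg (show (-3 : ℝ) < 0 by norm_num))).const_sub 1).const_mul (2 / 3)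
    have t2 := (((tendsto_exp_atBot.comp (t0.const_mul_atTop_of_neg hω)).const_mul M).mul_const
      ‖β1‖).const_mul ‖φ1‖
    have := le_of_tendsto_of_tendsto' t1 t2 h1
    norm_num at this

theorem result : ∃ (r a : ℝ → ℝ) (b : ℝ → ℝ → ℝ) (Xf : ℝ → ℝ → ℝ) (U V : ℝ≥0 → X →L[ℝ] X)
    (B : X →L[ℝ] X), Data r a b ∧ Flow r Xf ∧ IsU r a Xf U ∧ IsB a b B ∧ HasGap Pos U V B := aux

end Pool.Agent.Results.MP_bbd370_an.Gap
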